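import Pool.Agent.H59.CM.Main

/-! # MP_904bce_co: the limit of the conic method

A no-three-in-line set of the `n × n` grid whose points lie, mod a prime `5 ≤ p ≤ n`, on one
nondegenerate conic has at most `1.8 n + 13` points; for `n = 2p` and a hyperbola
`(x - a)(y - b) = k` at most `3p - 1` points (Hall, Jackson, Sudbery and Wild have `3p - 3`), and
`(√21 - 3 + o(1)) n` points as `p` tends to infinity. -/

namespace Pool.Agent.Results.MP_904bce_co.ConicMethodLimit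

open H59.N3 H59.CM Finset

theorem result {n p : ℕ} (hp : p.Prime) (h5 : 5 ≤ p) (hpn : p ≤ n)
    (A B C D E F : ZMod p) (hd : disc A B C D E F ≠ 0) (S : Finset (Cell n)) (hS : NoThree S)
    (hC : ∀ c ∈ S, qf A B C D E F ((c.1 : Fin n) : ℕ) ((c.2 : Fin n) : ℕ) = 0) :
    ((A ≠ 0 ∨ C ≠ 0) → #S ≤ (n / p + 1) * (p + 3) ∧ 3 * #S ≤ 4 * n + 9 * (n / p + 1)) ∧
    ((A = 0 ∧ C = 0) →
      (p < n → #S + p + 2 * (n / p) + 5 ≤ 2 * n + 4 * ((n + p - 1) / p)) ∧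
      (#S : ℝ) ≤ (Real.sqrt 21 - 3) * n + 1.1 * n / p + 1.04 * ((p : ℝ) + 1) ∧
      (#S : ℝ) ≤ (Real.sqrt 21 - 3) * n + 1.1 * n / p +
        1.75 * (p : ℝ) ^ ((3 : ℝ) / 4) * (1 + Real.log p) + 3) ∧
    5 * #S ≤ 9 * n + 65 :=
  main hp h5 hpn A B C D E F hd S hS hC

end Pool.Agent.Results.MP_904bce_co.ConicMethodLimit
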