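import Pool.Agent.H59.N3.Main
import Pool.Agent.H59.N3.Prb
import Pool.Agent.H59.N3.Bfin
import Pool.Agent.H59.N3.Sol

/-! # MP_904bce_co: the number of no-three-in-line sets of each size

`numNT n k` is the number of `k`-element subsets of the `n × n` grid with no three points in line.
(1) Upper bound for all `n ≥ 1` and `k`; for `k ≥ c n` it is a fraction `n^(-Ω(k))` of all `k`-sets.
(2) The case `k = 2 n`: the solutions of the no-three-in-line problem.
(3) Lower bound of the same form `n^(-O(k))`, for `k ≤ n / 4` (subsets of the parabola modulo a prime).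
(4) Lower bound `e^(-O(k))` for `k ≤ n / (16 sqrt (1 + log n))` (deletion): by (1) this range is the
right one up to the constant. -/

namespace Pool.Agent.Results.MP_904bce_co.CountingSets

open H59.N3

theorem result :
    (∀ n k : ℕ, 1 ≤ n → (numNT n k : ℝ) ≤
      Real.exp (4 * k - (k : ℝ) ^ 3 * Real.log n / (2 ^ 40 * (n : ℝ) ^ 2)) *
        ((n ^ 2).choose k : ℝ)) ∧
    (∀ n : ℕ, 2 ≤ n → (numNT n (2 * n) : ℝ) ≤
      Real.exp (10 * n) * (n : ℝ) ^ (-((n : ℝ) / 2 ^ 37)) * ((n.choose 2 : ℕ) : ℝ) ^ n) ∧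
    (∀ n k : ℕ, 4 * k ≤ n → ((n ^ 2).choose k : ℝ) ≤ (4 * (n : ℝ)) ^ k * numNT n k) ∧
    (∀ n k : ℕ, 1 ≤ n → 256 * (k : ℝ) ^ 2 * (1 + Real.log n) ≤ (n : ℝ) ^ 2 →
      ((n ^ 2).choose k : ℝ) ≤ 8 ^ k * numNT n k) :=
  ⟨fun _ k hn => main_A hn k, fun _ hn => solutions hn (main_A (by omega) _),
    fun _ _ hk => parabola_lower hk, fun _ _ hn h => lower_bound hn h⟩

end Pool.Agent.Results.MP_904bce_co.CountingSets
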