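import Pool.Agent.H59.N3.Main
import Pool.Agent.H59.N3.RandB

/-! # MP_904bce_co: random subsets of the grid

For almost all sets `V` of `m` points of the `n × n` grid, `m ≤ k e^(-6) n^(k^2 / (2^40 n^2))`, no
`k`-element subset of `V` is without three in line.  For `k = ⌈c n⌉` this allows `m = n^(1 + δ)` with
`δ = δ(c) > 0`. -/

namespace Pool.Agent.Results.MP_904bce_co.RandomSubsets

open H59.N3 Finset

open Classical in
theorem result {n k m : ℕ} (hn : 1 ≤ n) (hk : 1 ≤ k)
    (hm : (m : ℝ) ≤ k * Real.exp (-6) * (n : ℝ) ^ ((k : ℝ) ^ 2 / (2 ^ 40 * (n : ℝ) ^ 2))) :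
    ((((univ : Finset (Cell n)).powersetCard m).filter
      (fun V => ∃ S ⊆ V, S.card = k ∧ NoThree S)).card : ℝ) ≤
      Real.exp (-(k : ℝ)) * ((n ^ 2).choose m : ℝ) :=
  rand_bound hn hk (main_A hn k) hm

end Pool.Agent.Results.MP_904bce_co.RandomSubsets
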